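import Pool.Agent.U36.TS.Stm

/-!
# Project TS, package POW (helper324 for helper36): powers of the Frobenius element
-/

set_option autoImplicit false

namespace Pool.Agent.U36.TS

theorem u324_pow_succ {M : Type} [Field M] (S : M ≃+* M) (n : ℕ) (x : M) :
    (S ^ (n + 1)) x = S ((S ^ n) x) := by
  rw [pow_succ']
  rfl

theorem u324_pow_add {M : Type} [Field M] (S : M ≃+* M) (n k : ℕ) (x : M) :
    (S ^ (n + k)) x = (S ^ n) ((S ^ k) x) := by
  rw [pow_add]
  rfl

theorem u324_rel_pow {M : Type} [Field M] {l q : ℕ} {th : ℕ → M} {T Ph : M ≃+* M} {U : Set M}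
    (h : Tame M l q th T Ph U) (n : ℕ) (x : M) : Ph ((T ^ n) x) = (T ^ (q * n)) (Ph x) := by
  induction n with
  | zero =>
    rw [mul_zero, pow_zero]
    rfl
  | succ n ih => rw [u324_pow_succ, h.rel, ih, mul_add, mul_one, add_comm, u324_pow_add]

theorem t_POW : S_POW := by
  intro M _ l q th T Ph U h f hf
  have hp : ∀ (k : ℕ) (m : ℕ), (Ph ^ k) (th m) = th m ^ (q ^ k) := by
    intro k m
    induction k with
    | zero =>
      rw [pow_zero, pow_zero, pow_one]
      rfl
    | succ k ih => rw [u324_pow_succ, ih, map_pow, h.Ph_pow, ← pow_mul, ← pow_succ']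
  have hr : ∀ (k : ℕ) (x : M), (Ph ^ k) (T x) = (T ^ (q ^ k)) ((Ph ^ k) x) := by
    intro k x
    induction k with
    | zero =>
      rw [pow_zero, pow_zero, pow_one]
      rfl
    | succ k ih => rw [u324_pow_succ, ih, u324_rel_pow h, u324_pow_succ, ← pow_succ']
  exact
    { prime := h.prime
      two := h.two.trans (Nat.le_self_pow hf.ne' q)
      prim := h.prim
      comp := h.comp
      T_fix := h.T_fix
      Ph_pow := hp f
      rel := hr f
      ne_zero := h.ne_zero
      mul := h.mul
      inv := h.inv
      T_mem := h.T_mem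
      root := h.root
      of_pow := h.of_pow
      one_sub := h.one_sub
      const := h.const }

end Pool.Agent.U36.TS
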